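import Mathlib

set_option autoImplicit false

namespace Pool.Agent.Results.MP_fb7c1b_co.Counter

/-- `k` lions can clear `G`: `p t i` is the position of lion `i` and `C t` the cleared set. -/
def Clears {V : Type} (G : SimpleGraph V) (k : ℕ) : Prop :=
  ∃ (p : ℕ → Fin k → V) (C : ℕ → Set V),
    (∀ t i, p (t + 1) i = p t i ∨ G.Adj (p t i) (p (t + 1) i)) ∧
    C 0 = Set.range (p 0) ∧
    (∀ t v, v ∈ C (t + 1) ↔ (∃ i, p (t + 1) i = v) ∨
      (v ∈ C t ∧ ∀ u, G.Adj v u → u ∉ C t → ∃ i, p t i = v ∧ p (t + 1) i = u)) ∧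
    ∃ t, C t = Set.univ

def nb (a : ℕ) : List ℕ := ([[1, 3, 4, 6], [0, 2, 5, 8], [1, 7], [0], [0], [1, 6, 9], [0, 5, 9], [2], [1], [5, 6]] : List (List ℕ)).getD a []

def H0 : SimpleGraph (Fin 10) where
  Adj a b := b.val ∈ nb a
  symm := ⟨by decide +kernel⟩
  loopless := ⟨by decide +kernel⟩

def G0 : SimpleGraph (Fin 10) where
  Adj a b := b.val ∈ nb a ∨ (a = 0 ∧ b = 5) ∨ (a = 5 ∧ b = 0)
  symm := ⟨by decide +kernel⟩
  loopless := ⟨by decide +kernel⟩

instance : DecidableRel H0.Adj := fun a b => inferInstanceAs (Decidable (b.val ∈ nb a))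

instance : DecidableRel G0.Adj := fun a b =>
  inferInstanceAs (Decidable (b.val ∈ nb a ∨ (a = 0 ∧ b = 5) ∨ (a = 5 ∧ b = 0)))

def tab : List (List (List ℕ)) := [[[609,585,593,553,561,397,405,281,157],[835,803,587,555,779,595,563,787,399,407,159,739,411],[613,557,565,397,405,157,285,263],[617,601,413],[625,601,413],[553,561,313,933,105,113,431,439,737,189],[609,585,593,345,353,705,463,471,221],[153,705,677,649,657,391,397,405],[865,809,817,413],[933,705,793,911,919,669]],
  [[587,595,555,563,835,803,779,787,399,407,739,159,411],[610,834,802,398,406,158,410],[614,806,158,286,398,406],[618,842,27,414],[626,850,27,414],[610,802,106,114,430,438,674,315,191,442],[834,347,354,462,470,738,223,474,730],[390,154,706,678],[866,414],[674,795,910,918,671,730,922]],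
  [[613,557,565,397,405,157,285,263],[614,806,158,286,398,406],[388,548],[620,29,270,412],[628,29,278,412],[420,548,317,318,189],[612,349,356,460,468,221,350],[388,676],[388,804],[548,900,797,798,669]],
  [[617,601,413],[618,842,27,414],[620,270,29,412],[152,584],[152,600],[616,120,446,445],[712,478,477],[152,712,396],[412,872,281],[584,926,925]],
  [[625,601,413],[626,850,27,414],[628,278,29,412],[152,600],[152,592],[624,120,446,445],[720,478,477],[152,720,404],[412,880,281],[592,926,925]],
  [[553,561,933,313,105,113,431,439,737,189],[610,802,106,114,430,438,315,674,191,442],[420,548,317,318,189],[616,120,446,445],[624,120,446,445],[932,313,189],[996,377,494,502,253,760],[420,184,676],[800,445,446],[932,825,701,760]],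
  [[609,585,593,345,353,705,463,471,221],[834,347,354,462,470,738,223,474,730],[612,349,356,460,468,221,350],[712,478,477],[720,478,477],[377,996,494,502,253,760],[462,470,728],[216,704,452],[864,477,478],[996,974,982,728]],
  [[153,705,677,649,657,391,397,405],[390,154,706,678],[388,676],[152,712,396],[152,720,404],[420,184,676],[216,704,452],[128],[932],[664,900]],
  [[865,809,817,413],[866,414],[388,804],[872,412,281],[880,412,281],[800,445,446],[864,477,478],[932],[388,800],[800,925,926]],
  [[933,705,793,911,919,669],[795,674,910,918,671,730,922],[548,900,797,798,669],[584,926,925],[592,926,925],[932,825,701,760],[996,974,982,728],[664,900],[800,925,926],[932,728]]]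

def L (p q : ℕ) : List ℕ := (tab.getD p []).getD q []

def nxt (p q a b M : ℕ) : List ℕ := (List.range 10).filter fun v => v == a || v == b ||
  (M.testBit v && (nb v).all fun u => M.testBit u || (p == v && a == u) || (q == v && b == u))

def ok (l : List ℕ) (a b : ℕ) : Bool := (L a b).any fun M' => l.all fun v => M'.testBit v

def chk : Bool := (List.range 10).all fun p => (List.range 10).all fun q =>
  ok [p, q] p q && (L p q).all fun M => !((List.range 10).all fun v => M.testBit v) &&
    (p :: nb p).all fun a => (q :: nb q).all fun b => ok (nxt p q a b M) a b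

theorem chk_ok : chk = true := by decide +kernel

theorem not_clears : ¬ Clears H0 2 := by
  rintro ⟨p, C, h1, h2, h3, T, hT⟩
  have hc := chk_ok
  simp only [chk, ok, List.all_eq_true, List.any_eq_true, Bool.and_eq_true, List.mem_range,
    Bool.not_eq_true'] at hc
  have inv : ∀ t, ∃ M ∈ L (p t 0) (p t 1), ∀ v ∈ C t, M.testBit v.val = true := by
    intro t
    induction t with
    | zero =>
      obtain ⟨M, hM, h⟩ := (hc _ (p 0 0).2 _ (p 0 1).2).1
      refine ⟨M, hM, ?_⟩
      rw [h2]
      rintro _ ⟨i, rfl⟩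
      apply h
      fin_cases i <;> simp
    | succ t ih =>
      obtain ⟨M, hM, h⟩ := ih
      have mv : ∀ i, (p (t + 1) i).val ∈ (p t i).val :: nb (p t i) := fun i =>
        (h1 t i).elim (fun e => by simp [e]) fun e => List.mem_cons_of_mem _ e
      obtain ⟨M', hM', h'⟩ := ((hc _ (p t 0).2 _ (p t 1).2).2 M hM).2 _ (mv 0) _ (mv 1)
      refine ⟨M', hM', fun v hv => h' _ ?_⟩
      simp only [nxt, List.mem_filter, List.mem_range, Bool.or_eq_true, beq_iff_eq,
        Bool.and_eq_true, List.all_eq_true]
      refine ⟨v.2, ?_⟩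
      rcases (h3 t v).mp hv with ⟨i, rfl⟩ | ⟨h4, h5⟩
      · left; fin_cases i <;> simp
      · refine Or.inr ⟨h v h4, fun u hu => ?_⟩
        have hu' : u < 10 := (by decide +kernel : ∀ v : Fin 10, ∀ u ∈ nb v, u < 10) v u hu
        by_cases e : (⟨u, hu'⟩ : Fin 10) ∈ C t
        · exact Or.inl (Or.inl (h _ e))
        · obtain ⟨i, e1, e2⟩ := h5 ⟨u, hu'⟩ hu e
          fin_cases i
          · exact Or.inl (Or.inr ⟨congrArg Fin.val e1, congrArg Fin.val e2⟩)
          · exact Or.inr ⟨congrArg Fin.val e1, congrArg Fin.val e2⟩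
  obtain ⟨M, hM, h⟩ := inv T
  have := ((hc _ (p T 0).2 _ (p T 1).2).2 M hM).1
  rw [← Bool.not_eq_true, List.all_eq_true] at this
  exact this fun v hv => h ⟨v, List.mem_range.mp hv⟩ (by rw [hT]; trivial)

def pos (t : ℕ) : Fin 2 → Fin 10 :=
  ![([5, 5, 5, 1, 0, 5, 1, 1, 1, 2, 7] : List (Fin 10)).getD (min t 10) 0, ([9, 6, 0, 0, 3, 0, 0, 4, 0, 1, 8] : List (Fin 10)).getD (min t 10) 0]

def cl (t : ℕ) : ℕ := ([544, 608, 609, 611, 617, 617, 619, 635, 635, 639, 1023] : List ℕ).getD (min t 10) 0

theorem clears : Clears G0 2 := by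
  have key : ∀ t < 10 + 1, (∀ i, pos (t + 1) i = pos t i ∨ G0.Adj (pos t i) (pos (t + 1) i)) ∧
      ∀ v : Fin 10, (cl (t + 1)).testBit v = true ↔ (∃ i, pos (t + 1) i = v) ∨
      ((cl t).testBit v = true ∧ ∀ u, G0.Adj v u → ¬ (cl t).testBit u = true →
        ∃ i, pos t i = v ∧ pos (t + 1) i = u) := by decide +kernel
  have e : ∀ t, ∃ s < 10 + 1, pos t = pos s ∧ pos (t + 1) = pos (s + 1) ∧ cl t = cl s ∧
      cl (t + 1) = cl (s + 1) := by
    intro t
    refine ⟨min t 10, by omega, ?_⟩
    have a : min (min t 10) 10 = min t 10 := by omega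
    have b : min (min t 10 + 1) 10 = min (t + 1) 10 := by omega
    simp only [pos, cl, a, b, and_self]
  refine ⟨pos, fun t => {v | (cl t).testBit v = true}, fun t => ?_, ?_, fun t => ?_, 10, ?_⟩
  · obtain ⟨s, hs, e1, e2, -⟩ := e t
    rw [e1, e2]; exact (key s hs).1
  · ext v
    simp only [Set.mem_ofPred_eq, Set.mem_range]
    revert v; decide +kernel
  · obtain ⟨s, hs, e1, e2, e3, e4⟩ := e t
    simp only [Set.mem_ofPred_eq, e1, e2, e3, e4]
    exact (key s hs).2
  · ext v
    simp only [Set.mem_ofPred_eq, Set.mem_univ, iff_true]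
    revert v; decide +kernel

theorem result : ∃ (V : Type) (_ : Finite V) (G H : SimpleGraph V) (k : ℕ),
    G.Connected ∧ H.Connected ∧ H ≤ G ∧ 1 ≤ k ∧ Clears G k ∧ ¬ Clears H k := by
  have h1 : H0 ≤ G0 := fun _ _ h => Or.inl h
  have h2 : H0.Connected := by
    rw [SimpleGraph.connected_iff_exists_forall_reachable]
    have a : ∀ {x y z : Fin 10}, H0.Reachable x y → H0.Adj y z → H0.Reachable x z :=
      fun h h' => h.trans h'.reachable
    have r0 : H0.Reachable 0 0 := .refl _
    have r1 : H0.Reachable 0 1 := a r0 (by decide)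
    have r2 : H0.Reachable 0 2 := a r1 (by decide)
    have r5 : H0.Reachable 0 5 := a r1 (by decide)
    refine ⟨0, fun v => ?_⟩
    fin_cases v
    exacts [r0, r1, r2, a r0 (by decide), a r0 (by decide), r5, a r0 (by decide),
      a r2 (by decide), a r1 (by decide), a r5 (by decide)]
  exact ⟨Fin 10, inferInstance, G0, H0, 2, h2.mono h1, h2, h1, by norm_num, clears, not_clears⟩

end Pool.Agent.Results.MP_fb7c1b_co.Counter
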